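import Pool.Agent.H705.GB.Stm

/-! # Project GB (helper705), package IND (helper280) -/

set_option autoImplicit false

namespace Pool.Agent.H280.GB

open MeasureTheory ProbabilityTheory Finset
open Pool.Agent.H705.TR (PrimeIn Model un P_GEN P_CRT P_UN P_MOD)
open Pool.Agent.H705.GB

theorem par_congr {v w : ℕ → ℕ} {i : ℕ} (h : v i = w i) : par v i = par w i := by
  unfold par
  rw [h]

section

variable {Ω : Type} [MeasurableSpace Ω] {M : ℕ → ℕ} {P : Measure Ω} {Y : ℕ → Ω → ℕ}

theorem meas_loc (hGEN : P_GEN) (hM : Model M P Y) (S : Finset ℕ) (A : (ℕ → ℕ) → Prop)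
    (hA : ∀ v w : ℕ → ℕ, (∀ i ∈ S, v i = w i) → (A v ↔ A w)) :
    MeasurableSet {ω | A fun i => Y i ω} := by
  have hprob := hM.prob
  exact (hGEN Ω P ℕ Y hprob hM.meas hM.indep S ∅ (disjoint_empty_right _) A (fun _ => True) hA
    (fun _ _ _ => Iff.rfl)).1

theorem indep_loc (hGEN : P_GEN) (hM : Model M P Y) (S T : Finset ℕ) (hST : Disjoint S T)
    (A A' : (ℕ → ℕ) → Prop) (hA : ∀ v w : ℕ → ℕ, (∀ i ∈ S, v i = w i) → (A v ↔ A w))
    (hA' : ∀ v w : ℕ → ℕ, (∀ i ∈ T, v i = w i) → (A' v ↔ A' w)) :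
    P.real {ω | (A fun i => Y i ω) ∧ A' fun i => Y i ω} =
      P.real {ω | A fun i => Y i ω} * P.real {ω | A' fun i => Y i ω} := by
  have hprob := hM.prob
  exact (hGEN Ω P ℕ Y hprob hM.meas hM.indep S T hST A A' hA hA').2.2

/-- the value of the coordinate `c` -/
def yv (c : ℕ) (u : ℕ × ℕ) : ℕ := 2 * u.1 + c % 2

/-- the value of the coordinate `2 N - c` -/
def yw (N c : ℕ) (u : ℕ × ℕ) : ℕ := 2 * u.2 + (2 * N - c) % 2

/-- the probability of the pair `u` -/
noncomputable def pu (P : Measure Ω) (Y : ℕ → Ω → ℕ) (N c : ℕ) (u : ℕ × ℕ) : ℝ :=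
  P.real {ω | Y c ω = u.1 ∧ Y (2 * N - c) ω = u.2}

theorem meas_pair (hGEN : P_GEN) (hM : Model M P Y) (N c : ℕ) (u : ℕ × ℕ) :
    MeasurableSet {ω | Y c ω = u.1 ∧ Y (2 * N - c) ω = u.2} :=
  meas_loc hGEN hM {c, 2 * N - c} (fun v => v c = u.1 ∧ v (2 * N - c) = u.2)
    (fun v w hvw => by
      rw [hvw c (by simp), hvw (2 * N - c) (by simp)])

theorem meas_val (hGEN : P_GEN) (hM : Model M P Y) (N c : ℕ) (A : ℕ → ℕ → Prop) :
    MeasurableSet {ω | A (par (fun i => Y i ω) c) (par (fun i => Y i ω) (2 * N - c))} :=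
  meas_loc hGEN hM {c, 2 * N - c} (fun v => A (par v c) (par v (2 * N - c)))
    (fun v w hvw => by
      rw [par_congr (hvw c (by simp)), par_congr (hvw (2 * N - c) (by simp))])

theorem reach_loc (hRCH : P_RCH) (z B N : ℕ) (Q : ℕ → ℕ → ℕ → Prop) (K j n c : ℕ)
    (T : Finset ℕ) (hT : ∀ i ≤ c, i ∈ T ∧ 2 * N - i ∈ T) (v w : ℕ → ℕ) (hvw : ∀ i ∈ T, v i = w i) :
    Reach z B N Q K j n c (par v) ↔ Reach z B N Q K j n c (par w) :=
  hRCH.2.1 z B N Q K j n c (par v) (par w) (fun i hi =>
    ⟨par_congr (hvw i (hT i hi).1), par_congr (hvw (2 * N - i) (hT i hi).2)⟩)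

theorem reach_meas (hRCH : P_RCH) (hGEN : P_GEN) (hM : Model M P Y) (z B N : ℕ)
    (Q : ℕ → ℕ → ℕ → Prop) (K j n c : ℕ) :
    MeasurableSet {ω | Reach z B N Q K j n c (par fun i => Y i ω)} :=
  meas_loc hGEN hM (range (2 * N + c + 1)) (fun v => Reach z B N Q K j n c (par v))
    (reach_loc hRCH z B N Q K j n c _ (fun i hi =>
      ⟨mem_range.2 (by omega), mem_range.2 (by omega)⟩))

theorem reach_indep (hRCH : P_RCH) (hGEN : P_GEN) (hM : Model M P Y) (z B N : ℕ)
    (Q : ℕ → ℕ → ℕ → Prop) (K j' n' c' c : ℕ) (u : ℕ × ℕ) (hc : c' < c) (hcN : c ≤ N) :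
    P.real {ω | (Y c ω = u.1 ∧ Y (2 * N - c) ω = u.2) ∧
      Reach z B N Q K j' n' c' (par fun i => Y i ω)} =
      pu P Y N c u * P.real {ω | Reach z B N Q K j' n' c' (par fun i => Y i ω)} := by
  refine indep_loc hGEN hM {c, 2 * N - c} (range c ∪ Ioc (2 * N - c) (2 * N)) ?_
    (fun v => v c = u.1 ∧ v (2 * N - c) = u.2) (fun v => Reach z B N Q K j' n' c' (par v)) ?_ ?_
  · rw [Finset.disjoint_left]
    intro i hi hi'
    rw [mem_insert, mem_singleton] at hi
    rw [mem_union, mem_range, mem_Ioc] at hi'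
    omega
  · intro v w hvw
    rw [hvw c (by simp), hvw (2 * N - c) (by simp)]
  · refine reach_loc hRCH z B N Q K j' n' c' _ (fun i hi => ⟨?_, ?_⟩)
    · rw [mem_union, mem_range]
      left
      omega
    · rw [mem_union, mem_Ioc]
      right
      omega

theorem val_eq {N c : ℕ} {u : ℕ × ℕ} {ω : Ω} (h : Y c ω = u.1 ∧ Y (2 * N - c) ω = u.2) :
    par (fun i => Y i ω) c = yv c u ∧ par (fun i => Y i ω) (2 * N - c) = yw N c u := by
  unfold par yv yw
  constructor
  · show 2 * Y c ω + c % 2 = 2 * u.1 + c % 2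
    rw [h.1]
  · show 2 * Y (2 * N - c) ω + (2 * N - c) % 2 = 2 * u.2 + (2 * N - c) % 2
    rw [h.2]

open Classical in
/-- the sum of the probabilities of the pairs -/
theorem sum_pu (hGEN : P_GEN) (hM : Model M P Y) (N c : ℕ) (A : ℕ → ℕ → Prop) :
    ∑ u ∈ (range (M c) ×ˢ range (M (2 * N - c))).filter (fun u => A (yv c u) (yw N c u)),
      pu P Y N c u =
      P.real {ω | A (par (fun i => Y i ω) c) (par (fun i => Y i ω) (2 * N - c))} := by
  have hprob := hM.prob
  unfold pu
  rw [← measureReal_biUnion_finset]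
  · congr 1
    ext ω
    rw [Set.mem_iUnion₂, Set.mem_ofPred_eq]
    constructor
    · rintro ⟨u, hu, h3⟩
      rw [mem_filter] at hu
      obtain ⟨e1, e2⟩ := val_eq h3
      rw [e1, e2]
      exact hu.2
    · intro h
      refine ⟨(Y c ω, Y (2 * N - c) ω), ?_, rfl, rfl⟩
      rw [mem_filter, mem_product, mem_range, mem_range]
      exact ⟨⟨hM.lt c ω, hM.lt _ ω⟩, h⟩
  · intro u _ u' _ hne
    rw [Function.onFun, Set.disjoint_left]
    intro ω h1 h2
    exact hne (Prod.ext (h1.1.symm.trans h2.1) (h1.2.symm.trans h2.2))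
  · intro u _
    exact meas_pair hGEN hM N c u

open Classical in
/-- the number of large jumps left -/
noncomputable def jj (B N n c j : ℕ) (u : ℕ × ℕ) : ℕ :=
  if jp N n c (yv c u) (yw N c u) ≤ B then j else j - 1

open Classical in
/-- the pairs which lead to the next level -/
noncomputable def WW (M : ℕ → ℕ) (z B N n c j : ℕ) : Finset (ℕ × ℕ) :=
  (range (M c) ×ˢ range (M (2 * N - c))).filter (fun u => ¬ R z N c (yv c u) (yw N c u) ∧
    (jp N n c (yv c u) (yw N c u) ≤ B ∨ 1 ≤ j))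

theorem next_ok (hNXT : P_NXT) {z B N T H L K j n c : ℕ} (hG : Glob z B N T H L)
    (hOk : Ok z B N T H (K + 1) j n c) {u : ℕ × ℕ} (hu : u ∈ WW M z B N n c j) :
    Ok z B N T H K (jj B N n c j u) (nt N n c (yv c u) (yw N c u))
      (nl N n c (yv c u) (yw N c u)) ∧ nl N n c (yv c u) (yw N c u) < c := by
  classical
  unfold WW at hu
  rw [mem_filter] at hu
  obtain ⟨-, hR, hj⟩ := hu
  have hc := hOk.1
  have hcN := hOk.2.2.1
  have h1 : yv c u % 2 = 1 := by
    unfold yv
    omega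
  have h2 : yw N c u % 2 = 1 := by
    unfold yw
    omega
  obtain ⟨a1, a2, a3, -⟩ := hNXT z B N T H L K j n c _ _ hG hOk hR h1 h2
  refine ⟨?_, a3⟩
  unfold jj
  by_cases h3 : jp N n c (yv c u) (yw N c u) ≤ B
  · rw [if_pos h3]
    exact a1 h3
  · rw [if_neg h3]
    exact a2 (not_le.1 h3) (hj.resolve_left h3)

theorem decomp (hNXT : P_NXT) (hRCH : P_RCH) (hGEN : P_GEN) (hM : Model M P Y)
    {z B N T H L K j n c : ℕ} (hG : Glob z B N T H L) (hOk : Ok z B N T H (K + 1) j n c)
    (Q : ℕ → ℕ → ℕ → Prop) :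
    P.real {ω | Reach z B N Q (K + 1) j n c (par fun i => Y i ω)} =
      P.real {ω | R z N c (par (fun i => Y i ω) c) (par (fun i => Y i ω) (2 * N - c)) ∧
        Q c (par (fun i => Y i ω) c) (par (fun i => Y i ω) (2 * N - c))} +
      ∑ u ∈ WW M z B N n c j, pu P Y N c u *
        P.real {ω | Reach z B N Q K (jj B N n c j u) (nt N n c (yv c u) (yw N c u))
          (nl N n c (yv c u) (yw N c u)) (par fun i => Y i ω)} := by
  classical
  have hprob := hM.prob
  have hset : {ω | Reach z B N Q (K + 1) j n c (par fun i => Y i ω)} =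
      {ω | R z N c (par (fun i => Y i ω) c) (par (fun i => Y i ω) (2 * N - c)) ∧
        Q c (par (fun i => Y i ω) c) (par (fun i => Y i ω) (2 * N - c))} ∪
      ⋃ u ∈ WW M z B N n c j, {ω | (Y c ω = u.1 ∧ Y (2 * N - c) ω = u.2) ∧
        Reach z B N Q K (jj B N n c j u) (nt N n c (yv c u) (yw N c u))
          (nl N n c (yv c u) (yw N c u)) (par fun i => Y i ω)} := by
    ext ω
    rw [Set.mem_union, Set.mem_iUnion₂, Set.mem_ofPred_eq, Set.mem_ofPred_eq, Reach]
    constructor
    · intro h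
      by_cases hR : R z N c (par (fun i => Y i ω) c) (par (fun i => Y i ω) (2 * N - c))
      · rcases h with h | h | h
        · exact Or.inl h
        · exact absurd hR h.1
        · exact absurd hR h.1
      · right
        have hval := val_eq (Y := Y) (N := N) (c := c) (u := (Y c ω, Y (2 * N - c) ω)) (ω := ω)
          ⟨rfl, rfl⟩
        have hmem : ∀ hj : jp N n c (yv c (Y c ω, Y (2 * N - c) ω))
            (yw N c (Y c ω, Y (2 * N - c) ω)) ≤ B ∨ 1 ≤ j,
            (Y c ω, Y (2 * N - c) ω) ∈ WW M z B N n c j := by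
          intro hj
          unfold WW
          rw [mem_filter, mem_product, mem_range, mem_range]
          refine ⟨⟨hM.lt c ω, hM.lt _ ω⟩, ?_, hj⟩
          rw [← hval.1, ← hval.2]
          exact hR
        rw [hval.1, hval.2] at h
        rcases h with h | h | h
        · rw [hval.1, hval.2] at hR
          exact absurd h.1 hR
        · refine ⟨(Y c ω, Y (2 * N - c) ω), hmem (Or.inl h.2.1), ⟨rfl, rfl⟩, ?_⟩
          unfold jj
          rw [if_pos h.2.1]
          exact h.2.2
        · refine ⟨(Y c ω, Y (2 * N - c) ω), hmem (Or.inr h.2.2.1), ⟨rfl, rfl⟩, ?_⟩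
          unfold jj
          rw [if_neg (not_le.2 h.2.1)]
          exact h.2.2.2
    · rintro (h | ⟨u, hu, h1, h2⟩)
      · exact Or.inl h
      · unfold WW at hu
        rw [mem_filter] at hu
        obtain ⟨-, hR, hj⟩ := hu
        obtain ⟨e1, e2⟩ := val_eq h1
        right
        rw [e1, e2]
        unfold jj at h2
        by_cases h3 : jp N n c (yv c u) (yw N c u) ≤ B
        · rw [if_pos h3] at h2
          exact Or.inl ⟨hR, h3, h2⟩
        · rw [if_neg h3] at h2
          exact Or.inr ⟨hR, not_le.1 h3, hj.resolve_left h3, h2⟩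
  rw [hset, measureReal_union (h₁ := measure_ne_top P _) (h₂ := measure_ne_top P _)]
  · congr 1
    rw [measureReal_biUnion_finset]
    · refine sum_congr rfl (fun u hu => ?_)
      exact reach_indep hRCH hGEN hM z B N Q K _ _ _ c u (next_ok hNXT hG hOk hu).2 hOk.2.2.1
    · intro u _ u' _ hne
      rw [Function.onFun, Set.disjoint_left]
      intro ω h1 h2
      exact hne (Prod.ext (h1.1.1.symm.trans h2.1.1) (h1.1.2.symm.trans h2.1.2))
    · intro u _
      exact (meas_pair hGEN hM N c u).inter (reach_meas hRCH hGEN hM z B N Q K _ _ _)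
  · rw [Set.disjoint_left]
    intro ω h1 h2
    rw [Set.mem_iUnion₂] at h2
    obtain ⟨u, hu, h3, -⟩ := h2
    unfold WW at hu
    rw [mem_filter] at hu
    apply hu.2.1
    obtain ⟨e1, e2⟩ := val_eq h3
    rw [← e1, ← e2]
    exact h1.1
  · refine Finset.measurableSet_biUnion _ (fun u _ => ?_)
    exact (meas_pair hGEN hM N c u).inter (reach_meas hRCH hGEN hM z B N Q K _ _ _)

end

theorem final_ineq (δ β r q b : ℝ) (K j : ℕ) (hδ0 : 0 ≤ δ) (hδ1 : δ ≤ 1) (hβ : 0 ≤ β)
    (hq : 0 ≤ q) (hb : 0 ≤ b) (hrqb : r + q + b = 1) (hr : δ ≤ r) (hbβ : b ≤ β) :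
    1 - (1 - δ) ^ (K + 1) - (((K + 1 : ℕ) : ℝ) * β) ^ (j + 1) ≤
      r + (q * (1 - (1 - δ) ^ K - (K * β) ^ (j + 1)) +
        b * (if 1 ≤ j then 1 - (1 - δ) ^ K - (K * β) ^ j else 0)) := by
  have ha : 0 ≤ (1 - δ) ^ K := pow_nonneg (by linarith) K
  have hk : 0 ≤ (K : ℝ) * β := mul_nonneg (Nat.cast_nonneg K) hβ
  have hq1 : q ≤ 1 := by linarith
  have hqb : (q + b) * (1 - δ) ^ K ≤ (1 - δ) ^ (K + 1) := by
    rw [pow_succ, mul_comm ((1 - δ) ^ K)]
    exact mul_le_mul_of_nonneg_right (by linarith) ha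
  rcases Nat.eq_zero_or_pos j with hj | hj
  · subst hj
    rw [if_neg (by omega)]
    push_cast
    have h1 : q * (1 - δ) ^ K ≤ (q + b) * (1 - δ) ^ K :=
      mul_le_mul_of_nonneg_right (by linarith) ha
    have h2 : q * (K * β) ≤ 1 * (K * β) := mul_le_mul_of_nonneg_right hq1 hk
    simp only [pow_one]
    nlinarith
  · rw [if_pos (by omega)]
    push_cast
    have hkj : 0 ≤ ((K : ℝ) * β) ^ j := pow_nonneg hk j
    have hkj1 : 0 ≤ ((K : ℝ) * β) ^ (j + 1) := pow_nonneg hk (j + 1)
    have h1 : q * (K * β) ^ (j + 1) ≤ 1 * (K * β) ^ (j + 1) :=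
      mul_le_mul_of_nonneg_right hq1 hkj1
    have h2 : b * (K * β) ^ j ≤ β * (K * β) ^ j := mul_le_mul_of_nonneg_right hbβ hkj
    have h3 : (K * β) ^ (j + 1) + β * (K * β) ^ j = (K * β) ^ j * ((K + 1) * β) := by
      rw [pow_succ]
      ring
    have h4 : ((K : ℝ) * β) ^ j ≤ ((K + 1) * β) ^ j :=
      pow_le_pow_left₀ hk (by nlinarith) j
    have h5 : ((K : ℝ) * β) ^ j * ((K + 1) * β) ≤ ((K + 1) * β) ^ j * ((K + 1) * β) :=
      mul_le_mul_of_nonneg_right h4 (by positivity)
    have h6 : (((K : ℝ) + 1) * β) ^ (j + 1) = ((K + 1) * β) ^ j * ((K + 1) * β) := pow_succ _ _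
    rw [h6]
    nlinarith

theorem T_IND (hNXT : P_NXT) (hRCH : P_RCH) (hGEN : P_GEN) : P_IND := by
  classical
  intro Ω _ M P Y hM z B N T H L Q ρ₁ ρ₂ δ β e₀ hG hδ0 hδ1 hβ0 he0 hyp hbad K
  have hprob := hM.prob
  induction K with
  | zero =>
    intro j n c _
    have h0 : ∀ Q' : ℕ → ℕ → ℕ → Prop,
        {ω | Reach z B N Q' 0 j n c (par fun i => Y i ω)} = (∅ : Set Ω) := by
      intro Q'
      ext ω
      rw [Set.mem_ofPred_eq, Reach]
      simp
    rw [h0, h0, measureReal_empty]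
    have he : 0 ≤ (if c = N then e₀ else 0) := by
      split_ifs
      · exact he0
      · exact le_rfl
    refine ⟨MeasurableSet.empty, by linarith, by linarith, ?_⟩
    rw [Nat.cast_zero, zero_mul, zero_pow (by omega), pow_zero]
    linarith
  | succ K ih =>
    intro j n c hOk
    have hc1 := hOk.1
    have hn1 := hOk.2.1
    have hcN := hOk.2.2.1
    have hT1 : n + (2 * z + 1) ≤ T := by
      have h1 := hOk.2.2.2.1
      have h2 : (K + 1) * (2 * z + 1) = K * (2 * z + 1) + (2 * z + 1) := by ring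
      rw [h2] at h1
      omega
    have hH1 : N ≤ c + H := by
      have h1 := hOk.2.2.2.2
      have h2 : (N - c) + (K + 1) * B + T ≤ 3 ^ j * ((N - c) + (K + 1) * B + T) :=
        Nat.le_mul_of_pos_left _ (by positivity)
      omega
    obtain ⟨a1, a2, a3⟩ := hyp c hc1 hcN hH1
    have a4 := hbad n c hc1 hcN hH1 hn1 hT1
    have hi : ∀ u ∈ WW M z B N n c j,
        ρ₁ * P.real {ω | Reach z B N (fun _ _ _ => True) K (jj B N n c j u)
          (nt N n c (yv c u) (yw N c u)) (nl N n c (yv c u) (yw N c u)) (par fun i => Y i ω)} ≤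
          P.real {ω | Reach z B N Q K (jj B N n c j u)
            (nt N n c (yv c u) (yw N c u)) (nl N n c (yv c u) (yw N c u)) (par fun i => Y i ω)} ∧
        P.real {ω | Reach z B N Q K (jj B N n c j u)
            (nt N n c (yv c u) (yw N c u)) (nl N n c (yv c u) (yw N c u)) (par fun i => Y i ω)} ≤
          ρ₂ * P.real {ω | Reach z B N (fun _ _ _ => True) K (jj B N n c j u)
            (nt N n c (yv c u) (yw N c u)) (nl N n c (yv c u) (yw N c u)) (par fun i => Y i ω)} ∧
        1 - (1 - δ) ^ K - (K * β) ^ (jj B N n c j u + 1) ≤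
          P.real {ω | Reach z B N (fun _ _ _ => True) K (jj B N n c j u)
            (nt N n c (yv c u) (yw N c u)) (nl N n c (yv c u) (yw N c u))
            (par fun i => Y i ω)} := by
      intro u hu
      obtain ⟨b1, b2⟩ := next_ok hNXT hG hOk hu
      obtain ⟨-, c1, c2, c3⟩ := ih _ _ _ b1
      have hne : nl N n c (yv c u) (yw N c u) ≠ N := by omega
      rw [if_neg hne] at c1 c2
      refine ⟨by linarith, by linarith, c3⟩
    have hT : {ω | R z N c (par (fun i => Y i ω) c) (par (fun i => Y i ω) (2 * N - c)) ∧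
        (fun (_ _ _ : ℕ) => True) c (par (fun i => Y i ω) c) (par (fun i => Y i ω) (2 * N - c))} =
        {ω | R z N c (par (fun i => Y i ω) c) (par (fun i => Y i ω) (2 * N - c))} := by
      ext ω
      simp
    have hpu : ∀ u, 0 ≤ pu P Y N c u := fun u => measureReal_nonneg
    rw [decomp hNXT hRCH hGEN hM hG hOk Q, decomp hNXT hRCH hGEN hM hG hOk (fun _ _ _ => True), hT]
    refine ⟨reach_meas hRCH hGEN hM z B N Q (K + 1) j n c, ?_, ?_, ?_⟩
    · rw [mul_add, mul_sum, add_sub_right_comm]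
      refine add_le_add a1 (sum_le_sum (fun u hu => ?_))
      have h1 := mul_le_mul_of_nonneg_left (hi u hu).1 (hpu u)
      refine le_trans (le_of_eq ?_) h1
      ring
    · rw [mul_add, mul_sum, add_right_comm]
      refine add_le_add a2 (sum_le_sum (fun u hu => ?_))
      have h1 := mul_le_mul_of_nonneg_left (hi u hu).2.1 (hpu u)
      refine le_trans h1 (le_of_eq ?_)
      ring
    · obtain ⟨r, hr⟩ : ∃ r, r = P.real {ω | R z N c (par (fun i => Y i ω) c)
        (par (fun i => Y i ω) (2 * N - c))} := ⟨_, rfl⟩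
      obtain ⟨q, hq⟩ : ∃ q, q = P.real {ω | ¬ R z N c (par (fun i => Y i ω) c)
        (par (fun i => Y i ω) (2 * N - c)) ∧ jp N n c (par (fun i => Y i ω) c)
        (par (fun i => Y i ω) (2 * N - c)) ≤ B} := ⟨_, rfl⟩
      obtain ⟨b, hb⟩ : ∃ b, b = P.real {ω | ¬ R z N c (par (fun i => Y i ω) c)
        (par (fun i => Y i ω) (2 * N - c)) ∧ B < jp N n c (par (fun i => Y i ω) c)
        (par (fun i => Y i ω) (2 * N - c))} := ⟨_, rfl⟩
      have hsum1 := sum_pu hGEN hM N c (fun y y' => ¬ R z N c y y' ∧ jp N n c y y' ≤ B)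
      have hsum2 := sum_pu hGEN hM N c (fun y y' => ¬ R z N c y y' ∧ B < jp N n c y y')
      rw [← hq] at hsum1
      rw [← hb] at hsum2
      have hrqb : r + q + b = 1 := by
        have e1 : P.real ({ω | R z N c (par (fun i => Y i ω) c)
            (par (fun i => Y i ω) (2 * N - c))} ∪ {ω | ¬ R z N c (par (fun i => Y i ω) c)
            (par (fun i => Y i ω) (2 * N - c)) ∧ jp N n c (par (fun i => Y i ω) c)
            (par (fun i => Y i ω) (2 * N - c)) ≤ B}) = r + q := by
          rw [measureReal_union (h₁ := measure_ne_top P _) (h₂ := measure_ne_top P _), hr, hq]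
          · rw [Set.disjoint_left]
            intro ω h1 h2
            exact h2.1 h1
          · exact meas_val hGEN hM N c (fun y y' => ¬ R z N c y y' ∧ jp N n c y y' ≤ B)
        have e2 : P.real (({ω | R z N c (par (fun i => Y i ω) c)
            (par (fun i => Y i ω) (2 * N - c))} ∪ {ω | ¬ R z N c (par (fun i => Y i ω) c)
            (par (fun i => Y i ω) (2 * N - c)) ∧ jp N n c (par (fun i => Y i ω) c)
            (par (fun i => Y i ω) (2 * N - c)) ≤ B}) ∪ {ω | ¬ R z N c (par (fun i => Y i ω) c)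
            (par (fun i => Y i ω) (2 * N - c)) ∧ B < jp N n c (par (fun i => Y i ω) c)
            (par (fun i => Y i ω) (2 * N - c))}) = r + q + b := by
          rw [measureReal_union (h₁ := measure_ne_top P _) (h₂ := measure_ne_top P _), e1, hb]
          · rw [Set.disjoint_left]
            intro ω h1 h2
            rcases h1 with h1 | h1
            · exact h2.1 h1
            · exact absurd h1.2 (not_le.2 h2.2)
          · exact meas_val hGEN hM N c (fun y y' => ¬ R z N c y y' ∧ B < jp N n c y y')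
        rw [← e2]
        have e3 : (({ω | R z N c (par (fun i => Y i ω) c)
            (par (fun i => Y i ω) (2 * N - c))} ∪ {ω | ¬ R z N c (par (fun i => Y i ω) c)
            (par (fun i => Y i ω) (2 * N - c)) ∧ jp N n c (par (fun i => Y i ω) c)
            (par (fun i => Y i ω) (2 * N - c)) ≤ B}) ∪ {ω | ¬ R z N c (par (fun i => Y i ω) c)
            (par (fun i => Y i ω) (2 * N - c)) ∧ B < jp N n c (par (fun i => Y i ω) c)
            (par (fun i => Y i ω) (2 * N - c))}) = (Set.univ : Set Ω) := by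
          rw [Set.eq_univ_iff_forall]
          intro ω
          by_cases h1 : R z N c (par (fun i => Y i ω) c) (par (fun i => Y i ω) (2 * N - c))
          · exact Or.inl (Or.inl h1)
          · by_cases h2 : jp N n c (par (fun i => Y i ω) c)
                (par (fun i => Y i ω) (2 * N - c)) ≤ B
            · exact Or.inl (Or.inr ⟨h1, h2⟩)
            · exact Or.inr ⟨h1, not_le.1 h2⟩
        rw [e3, probReal_univ]
      have hq0 : 0 ≤ q := by rw [hq]; exact measureReal_nonneg
      have hb0 : 0 ≤ b := by rw [hb]; exact measureReal_nonneg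
      rw [← hr] at a3 ⊢
      rw [← hb] at a4
      refine (final_ineq δ β r q b K j hδ0 hδ1 hβ0 hq0 hb0 hrqb a3 a4).trans ?_
      refine add_le_add le_rfl ?_
      have hlow : ∑ u ∈ WW M z B N n c j, pu P Y N c u *
          (1 - (1 - δ) ^ K - (K * β) ^ (jj B N n c j u + 1)) ≤
          ∑ u ∈ WW M z B N n c j, pu P Y N c u *
            P.real {ω | Reach z B N (fun _ _ _ => True) K (jj B N n c j u)
            (nt N n c (yv c u) (yw N c u)) (nl N n c (yv c u) (yw N c u))
            (par fun i => Y i ω)} :=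
        sum_le_sum (fun u hu => mul_le_mul_of_nonneg_left (hi u hu).2.2 (hpu u))
      refine le_trans (le_of_eq ?_) hlow
      rw [← hsum1, ← hsum2, sum_mul, sum_mul]
      unfold WW
      rw [sum_filter, sum_filter, sum_filter, ← sum_add_distrib]
      refine sum_congr rfl (fun u _ => ?_)
      unfold jj
      by_cases h1 : R z N c (yv c u) (yw N c u)
      · rw [if_neg (fun h => h.1 h1), if_neg (fun h => h.1 h1), if_neg (fun h => h.1 h1), add_zero]
      · by_cases h2 : jp N n c (yv c u) (yw N c u) ≤ B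
        · rw [if_pos ⟨h1, h2⟩, if_neg (fun h => absurd h2 (not_le.2 h.2)), if_pos ⟨h1, Or.inl h2⟩,
            if_pos h2, add_zero]
        · rw [if_neg (fun h => h2 h.2), if_pos ⟨h1, not_le.1 h2⟩, zero_add]
          by_cases h3 : 1 ≤ j
          · rw [if_pos h3, if_pos ⟨h1, Or.inr h3⟩, if_neg h2]
            have h4 : j - 1 + 1 = j := by omega
            rw [h4]
          · rw [if_neg h3, if_neg (fun h => h.2.elim h2 h3), mul_zero]

end Pool.Agent.H280.GB
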